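import Pool.Agent.R920.MT.Defs
import Pool.Agent.Y133.Half.PerDefs

/-!
# Graded de Rham structures and polarisations
-/

open CategoryTheory AlgebraicGeometry

universe u v

namespace Pool.Agent.R920.DB

open Pool.Agent.H914 Pool.Agent.H914.VarClass Pool.Agent.H914.VarClass.Obj
  Pool.Agent.H914.WeilCohomology Pool.Agent.Y133.Per Pool.Agent.R920.MT

section

variable {K : Type*} [Field K] [Algebra K ℂ] {A : Type*} [Ring A] [Algebra K A]

/-- The elements of `U`, with complex coefficients. -/
noncomputable def baseSub (U : Submodule K A) : Submodule ℂ (Base K A) :=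
  Submodule.span ℂ {b | ∃ c ∈ U, b = tm 1 c}

/-- Every element of `S` is a sum of elements of `S` which are homogeneous of the degrees
`0, …, n`. -/
def IsGradedSet (gr : ℕ → Submodule K A) (n : ℕ) (S : Set (Base K A)) : Prop :=
  ∀ a ∈ S, ∃ f : ℕ → Base K A, (∀ i, f i ∈ S ∧ f i ∈ baseSub (gr i)) ∧
    a = ∑ i ∈ Finset.range (n + 1), f i

end

variable {k : Type u} [Field k] {𝒱 : VarClass k} {ops : CycleOps 𝒱}

/-- The de Rham cohomology is graded by the degree. -/
def IsGraded {W : WeilCohomology.{u, v} ops} [Algebra W.K ℂ] {F : Subfield ℂ}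
    (D : DeRham W F) : Prop :=
  ∀ X : 𝒱.Obj, IsGradedSet (W.gr X) (2 * X.dim) (D.dR X)

/-- The class `x` of degree `2 j` on a variety of dimension `n` with orientation `t` satisfies the
Hodge-Riemann relation for `w`: if `w ^ (n - 2 j + 1) x = 0` and `x ≠ 0` then
`(-1) ^ j t (w ^ (n - 2 j) x x) > 0`. -/
def Riemannian {K A : Type v} [Field K] [Algebra K ℝ] [Ring A] [Algebra K A] (t : A →ₗ[K] K)
    (n j : ℕ) (w x : A) : Prop :=
  powMul w (n - 2 * j + 1) x = 0 → x ≠ 0 →
    0 < (-1 : ℝ) ^ j * algebraMap K ℝ (t (powMul w (n - 2 * j) x * x))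

/-- Every variety has a divisor which satisfies the hard Lefschetz theorem and the Hodge-Riemann
relations for the motivated classes. -/
def IsPolarised (W : WeilCohomology.{u, v} ops) [Algebra W.K ℝ] : Prop :=
  ∀ X : 𝒱.Obj, ∃ D : X.Cycles, X.IsCyc 1 D ∧ HardLefschetz W X D ∧
    ∀ (j : ℕ) (x : W.H X), 2 * j ≤ X.dim → IsMotivated W X j x →
      Riemannian (W.tr X) X.dim j (W.cl X D) x

end Pool.Agent.R920.DB
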