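import Pool.Agent.R920.DB.Defs
import Pool.Agent.R920.MT.Main
import Pool.Agent.Y133.Half.Per
import Pool.Agent.Y133.Half.HRPred

/-!
# De Rham-Betti classes and motivated classes
-/

set_option linter.unusedSectionVars false

open CategoryTheory AlgebraicGeometry

open scoped TensorProduct

universe u v

namespace Pool.Agent.R920.DB

open Module
open Pool.Agent.H914 Pool.Agent.H914.VarClass Pool.Agent.H914.VarClass.Obj
  Pool.Agent.H914.WeilCohomology Pool.Agent.Y133.Per Pool.Agent.R920.MT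
open Pool.Agent.Y133.Half (ClassPred)

section Alg

variable {K : Type*} [Field K] [Algebra K ℂ] {A B : Type*} [Ring A] [Algebra K A] [Ring B]
  [Algebra K B]

/-- The extension of a linear map to complex coefficients. -/
noncomputable def baseLin (f : A →ₗ[K] B) : Base K A →ₗ[ℂ] Base K B := f.baseChange ℂ

lemma baseLin_tm (f : A →ₗ[K] B) (r : ℂ) (c : A) : baseLin f (tm r c) = tm r (f c) :=
  LinearMap.baseChange_tmul _ _ _

lemma tm_mem {U : Submodule K A} (r : ℂ) {c : A} (hc : c ∈ U) : tm r c ∈ baseSub U := by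
  have h : (tm r c : Base K A) = r • tm 1 c := by rw [smul_tm, mul_one]
  rw [h]
  exact Submodule.smul_mem _ _ (Submodule.subset_span ⟨c, hc, rfl⟩)

lemma baseSub_ind {U : Submodule K A} {p : Base K A → Prop} (h0 : p 0)
    (h1 : ∀ (r : ℂ), ∀ c ∈ U, p (tm r c)) (h2 : ∀ a b, p a → p b → p (a + b)) {b : Base K A}
    (hb : b ∈ baseSub U) : p b := by
  have key : ∀ r : ℂ, p (r • b) := by
    unfold baseSub at hb
    induction hb using Submodule.span_induction with
    | mem x hx =>
      obtain ⟨c, hc, rfl⟩ := hx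
      intro r
      rw [smul_tm, mul_one]
      exact h1 r c hc
    | zero => intro r; rw [smul_zero]; exact h0
    | add x y _ _ hx hy => intro r; rw [smul_add]; exact h2 _ _ (hx r) (hy r)
    | smul s x _ hx => intro r; rw [smul_smul]; exact hx _
  have := key 1
  rwa [one_smul] at this

lemma baseLin_eq {U : Submodule K A} {f : A →ₗ[K] A} (hf : ∀ c ∈ U, f c = c) {b : Base K A}
    (hb : b ∈ baseSub U) : baseLin f b = b := by
  refine baseSub_ind (p := fun b => baseLin f b = b) (map_zero _) ?_ ?_ hb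
  · intro r c hc
    rw [baseLin_tm, hf c hc]
  · intro a b ha hb
    rw [map_add, ha, hb]

lemma baseLin_zero {U : Submodule K A} {f : A →ₗ[K] B} (hf : ∀ c ∈ U, f c = 0) {b : Base K A}
    (hb : b ∈ baseSub U) : baseLin f b = 0 := by
  refine baseSub_ind (p := fun b => baseLin f b = 0) (map_zero _) ?_ ?_ hb
  · intro r c hc
    rw [baseLin_tm, hf c hc, tm_zero]
  · intro a b ha hb
    rw [map_add, ha, hb, add_zero]

lemma baseLin_mem {U : Submodule K B} {f : A →ₗ[K] B} (hf : ∀ c, f c ∈ U) (b : Base K A) :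
    baseLin f b ∈ baseSub U := by
  refine base_ind (p := fun b => baseLin f b ∈ baseSub U) ?_ ?_ ?_ b
  · rw [map_zero]; exact Submodule.zero_mem _
  · intro r c
    rw [baseLin_tm]
    exact tm_mem r (hf c)
  · intro a b ha hb
    rw [map_add]
    exact Submodule.add_mem _ ha hb

lemma baseSub_mul {U V T : Submodule K A} (h : ∀ a ∈ U, ∀ b ∈ V, a * b ∈ T) {a b : Base K A}
    (ha : a ∈ baseSub U) (hb : b ∈ baseSub V) : a * b ∈ baseSub T := by
  refine baseSub_ind (p := fun a => a * b ∈ baseSub T) ?_ ?_ ?_ ha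
  · rw [zero_mul]; exact Submodule.zero_mem _
  · intro r c hc
    refine baseSub_ind (p := fun b => tm r c * b ∈ baseSub T) ?_ ?_ ?_ hb
    · rw [mul_zero]; exact Submodule.zero_mem _
    · intro s d hd
      rw [tm_mul]
      exact tm_mem _ (h c hc d hd)
    · intro x y hx hy
      rw [mul_add]
      exact Submodule.add_mem _ hx hy
  · intro x y hx hy
    rw [add_mul]
    exact Submodule.add_mem _ hx hy

/-- The extension of a linear map from a subspace to complex coefficients. -/
noncomputable def subLin {U : Submodule K A} (f : U →ₗ[K] A) : (ℂ ⊗[K] U) →ₗ[ℂ] Base K A :=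
  f.baseChange ℂ

lemma subLin_tmul {U : Submodule K A} (f : U →ₗ[K] A) (r : ℂ) (c : U) :
    subLin f (r ⊗ₜ[K] c) = tm r (f c) := LinearMap.baseChange_tmul _ _ _

/-- Multiplication by an element which is injective on `U`. -/
lemma baseSub_inj {U : Submodule K A} {w : A} (hw : ∀ x ∈ U, w * x = 0 → x = 0) {v : Base K A}
    (hv : v ∈ baseSub U) (h : tm 1 w * v = 0) : v = 0 := by
  obtain ⟨v', rfl⟩ : ∃ v' : ℂ ⊗[K] U, subLin U.subtype v' = v := by
    refine baseSub_ind (p := fun v => ∃ v' : ℂ ⊗[K] U, subLin U.subtype v' = v) ?_ ?_ ?_ hv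
    · exact ⟨0, map_zero _⟩
    · intro r c hc
      exact ⟨r ⊗ₜ[K] (⟨c, hc⟩ : U), subLin_tmul _ _ _⟩
    · rintro a b ⟨a', ha⟩ ⟨b', hb⟩
      exact ⟨a' + b', by rw [map_add, ha, hb]⟩
  let g : U →ₗ[K] A := LinearMap.mulLeft K w ∘ₗ U.subtype
  have hg : Function.Injective g := by
    rw [← LinearMap.ker_eq_bot, LinearMap.ker_eq_bot']
    rintro ⟨x, hx⟩ h0
    exact Subtype.ext (hw x hx h0)
  have h2 : ∀ z' : ℂ ⊗[K] U, subLin g z' = tm 1 w * subLin U.subtype z' := by
    intro z'
    induction z' using TensorProduct.induction_on with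
    | zero => rw [map_zero, map_zero, mul_zero]
    | add a b ha hb => rw [map_add, map_add, ha, hb, mul_add]
    | tmul r c =>
      rw [subLin_tmul, subLin_tmul, tm_mul, one_mul]
      rfl
  have h4 : Function.Injective (subLin g) :=
    Module.Flat.lTensor_preserves_injective_linearMap (M := ℂ) g hg
  have h5 : v' = 0 := h4 (((h2 v').trans h).trans (map_zero _).symm)
  rw [h5]
  exact map_zero _

end Alg

variable {k : Type u} [Field k] {𝒱 : VarClass k} {ops : CycleOps 𝒱}
  {W : WeilCohomology.{u, v} ops} [Algebra W.K ℂ] {F : Subfield ℂ} {X Y : 𝒱.Obj} {D : DeRham W F}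

/-- The projection to the part of degree `i`. -/
noncomputable def bproj (W : WeilCohomology.{u, v} ops) [Algebra W.K ℂ] (X : 𝒱.Obj) (i : ℕ) :
    Base W.K (W.H X) →ₗ[ℂ] Base W.K (W.H X) := baseLin (H914.proj (W.isInternal X) i)

lemma bproj_same {i : ℕ} {b : Base W.K (W.H X)} (hb : b ∈ baseSub (W.gr X i)) :
    bproj W X i b = b := baseLin_eq (fun c hc => proj_same _ hc) hb

lemma bproj_ne {i j : ℕ} (h : i ≠ j) {b : Base W.K (W.H X)} (hb : b ∈ baseSub (W.gr X i)) :
    bproj W X j b = 0 := baseLin_zero (fun c hc => proj_ne _ hc h) hb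

lemma bproj_mem (i : ℕ) (b : Base W.K (W.H X)) : bproj W X i b ∈ baseSub (W.gr X i) :=
  baseLin_mem (fun c => H914.proj_mem _ _ c) b

lemma tr_of_ne {i : ℕ} (hi : i ≠ 2 * X.dim) {b : Base W.K (W.H X)}
    (hb : b ∈ baseSub (W.gr X i)) : baseTr (W.tr X) b = 0 := by
  refine baseSub_ind (p := fun b => baseTr (W.tr X) b = 0) (map_zero _) ?_ ?_ hb
  · intro r c hc
    rw [baseTr_tm, W.tr_eq_zero hc hi, map_zero, mul_zero]
  · intro a b ha hb
    rw [map_add, ha, hb, add_zero]

lemma bproj_dR (hD : IsGraded D) {i : ℕ} (hi : i ≤ 2 * X.dim) {a : Base W.K (W.H X)}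
    (ha : a ∈ D.dR X) : bproj W X i a ∈ D.dR X := by
  obtain ⟨f, hf, rfl⟩ := hD X a ha
  rw [map_sum, Finset.sum_eq_single_of_mem i (Finset.mem_range.2 (by omega))
    (fun l _ hl => bproj_ne hl (hf l).2), bproj_same (hf i).2]
  exact (hf i).1

/-- The de Rham-Betti classes have the Lefschetz isomorphisms. -/
lemma drb_lift (hD : IsGraded D) {E : X.Cycles} (hE : X.IsCyc 1 E) (hL : HardLefschetz W X E)
    {j : ℕ} (hj : 2 * j ≤ X.dim) {x : W.H X} (hx : x ∈ W.gr X (2 * j))
    (h : IsDRB D X (X.dim - j) (powMul (W.cl X E) (X.dim - 2 * j) x)) : IsDRB D X j x := by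
  obtain ⟨m, hm⟩ : ∃ m, m = X.dim - 2 * j := ⟨_, rfl⟩
  rw [← hm, powMul] at h
  set w := W.cl X E ^ m with hw
  have h0 : twoPiI ^ X.dim ≠ 0 := pow_ne_zero _ twoPiI_ne
  have hwD : IsDRB D X m w := by
    have := ClassPred.pow (Q := drbPred D) ((drbPred D).cl hE) m
    rwa [one_mul] at this
  have hinj : ∀ y ∈ W.gr X (2 * j), w * y = 0 → y = 0 := by
    intro y hy h1
    apply (hL (2 * j) hj).1 y hy
    rw [LinearMap.pow_mulLeft, LinearMap.mulLeft_apply, ← hm]
    exact h1
  let u : Base W.K (W.H X) := tm (twoPiI ^ m) w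
  have hu : u ∈ D.dR X := hwD.2
  let V : Submodule ℂ (Base W.K (W.H X)) := baseSub (W.gr X (2 * j))
  let U : Submodule F V :=
    { carrier := {b | (b : Base W.K (W.H X)) ∈ D.dR X}
      add_mem' := fun ha hb => (D.form X).add _ ha _ hb
      zero_mem' := (D.form X).zero
      smul_mem' := fun r _ ha => (D.form X).smul r.1 r.2 _ ha }
  have hspan : Submodule.span ℂ (U : Set V) = ⊤ := by
    rw [eq_top_iff]
    rintro ⟨v, hv⟩ -
    have key : ∀ b : Base W.K (W.H X), b ∈ Submodule.span ℂ (D.dR X) →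
        (⟨bproj W X (2 * j) b, bproj_mem _ _⟩ : V) ∈ Submodule.span ℂ (U : Set V) := by
      intro b hb
      induction hb using Submodule.span_induction with
      | mem a ha =>
        apply Submodule.subset_span
        exact bproj_dR hD (by omega) ha
      | zero =>
        have : (⟨bproj W X (2 * j) 0, bproj_mem _ _⟩ : V) = 0 := Subtype.ext (map_zero _)
        rw [this]
        exact Submodule.zero_mem _
      | add a b _ _ ha hb =>
        have : (⟨bproj W X (2 * j) (a + b), bproj_mem _ _⟩ : V) =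
            ⟨bproj W X (2 * j) a, bproj_mem _ _⟩ + ⟨bproj W X (2 * j) b, bproj_mem _ _⟩ :=
          Subtype.ext (map_add _ _ _)
        rw [this]
        exact Submodule.add_mem _ ha hb
      | smul r a _ ha =>
        have : (⟨bproj W X (2 * j) (r • a), bproj_mem _ _⟩ : V) =
            r • ⟨bproj W X (2 * j) a, bproj_mem _ _⟩ := Subtype.ext (map_smul _ _ _)
        rw [this]
        exact Submodule.smul_mem _ _ ha
    have h1 := key v (by rw [(D.form X).span]; exact Submodule.mem_top)
    have h2 : (⟨bproj W X (2 * j) v, bproj_mem _ _⟩ : V) = ⟨v, hv⟩ :=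
      Subtype.ext (bproj_same hv)
    rwa [h2] at h1
  let Bl : Base W.K (W.H X) →ₗ[ℂ] Base W.K (W.H X) →ₗ[ℂ] ℂ :=
    (twoPiI ^ X.dim)⁻¹ • ((LinearMap.mul ℂ (Base W.K (W.H X))).compr₂ (baseTr (W.tr X)))
  let B : V →ₗ[ℂ] V →ₗ[ℂ] ℂ := (Bl ∘ₗ LinearMap.mulLeft ℂ u).domRestrict₁₂ V V
  have hBe : ∀ a b : V, B a b = (twoPiI ^ X.dim)⁻¹ *
      baseTr (W.tr X) (u * (a : Base W.K (W.H X)) * (b : Base W.K (W.H X))) := fun a b => rfl
  have key : ∀ (a b : V) (r : ℂ), baseTr (W.tr X) (u * (a : Base W.K (W.H X)) *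
      (b : Base W.K (W.H X))) = twoPiI ^ X.dim * r → B a b = r := by
    intro a b r h
    rw [hBe, h, ← mul_assoc, inv_mul_cancel₀ h0, one_mul]
  have hnd : ∀ v : V, (∀ w : V, B v w = 0) → v = 0 := by
    rintro ⟨v, hv⟩ h1
    apply Subtype.ext
    have h2 : u * v = 0 := by
      apply baseTr_nondeg _ (Pool.Agent.Y133.Half.exists_dual_class W)
      intro c
      refine base_ind (p := fun c => baseTr (W.tr X) (u * v * c) = 0) ?_ ?_ ?_ c
      · rw [mul_zero, map_zero]
      · intro r d
        refine gr_induction (W.isInternal X) (p := fun d => baseTr (W.tr X) (u * v * tm r d) = 0)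
          ?_ ?_ d
        · intro i a ha
          by_cases hi : i = 2 * j
          · subst hi
            have h3 := h1 ⟨tm r a, tm_mem r ha⟩
            rw [hBe] at h3
            exact (mul_eq_zero.1 h3).resolve_left (inv_ne_zero h0)
          · have h4 : u * v * tm r a ∈ baseSub (W.gr X (2 * m + 2 * j + i)) :=
              baseSub_mul (fun a ha b hb => W.mul_mem ha hb)
                (baseSub_mul (fun a ha b hb => W.mul_mem ha hb) (tm_mem _ hwD.1) hv)
                (tm_mem r ha)
            exact tr_of_ne (by omega) h4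
        · intro a b ha hb
          rw [tm_add, mul_add, map_add, ha, hb, add_zero]
      · intro a b ha hb
        rw [mul_add, map_add, ha, hb, add_zero]
    apply baseSub_inj hinj hv
    have h3 : u = twoPiI ^ m • (tm 1 w : Base W.K (W.H X)) := by
      rw [smul_tm, mul_one]
    rw [h3, smul_mul_assoc] at h2
    exact (smul_eq_zero.1 h2).resolve_left (pow_ne_zero _ twoPiI_ne)
  have hDB : ∀ v ∈ U, ∀ w ∈ U, B v w ∈ F := by
    intro v hv w hw
    obtain ⟨r, hr, h⟩ := (D.form X).tr _ ((D.form X).mul _ ((D.form X).mul u hu _ hv) _ hw)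
    rw [key v w r h]
    exact hr
  have hmem := mem_of_pair U hspan B hnd hDB (v := ⟨tm (twoPiI ^ j) x, tm_mem _ hx⟩) (by
    intro b hb
    have h1 : u * tm (twoPiI ^ j) x = twist (X.dim - j) (w * x) := by
      rw [tm_mul, ← pow_add, twist]
      congr 2
      omega
    have h2 : u * tm (twoPiI ^ j) x ∈ D.dR X := by
      rw [h1]
      exact h.2
    obtain ⟨r, hr, h⟩ := (D.form X).tr _ ((D.form X).mul _ h2 _ hb)
    rw [key _ b r h]
    exact hr)
  exact ⟨hx, hmem⟩

/-- The de Rham-Betti classes form a system. -/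
lemma isSystem_drb (hD : IsGraded D) : IsSystem (W := W) (IsDRB D) where
  lin X j := ⟨{ carrier := {c | IsDRB D X j c}
                add_mem' := fun ha hb => IsDRB.add ha hb
                zero_mem' := IsDRB.zero
                smul_mem' := fun r _ ha => IsDRB.smul r ha }, fun _ => Iff.rfl⟩
  cl _ _ _ hz := IsDRB.cl hz
  mul _ _ _ _ _ ha hb := IsDRB.mul ha hb
  map _ _ f _ _ h := IsDRB.map f h
  push _ _ f _ _ _ hl h := IsDRB.push f hl h
  lift _ _ _ hE hL hj _ hx h := drb_lift hD hE hL hj hx h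

/-- Motivated classes are de Rham-Betti classes. -/
lemma mot_drb (hD : IsGraded D) {j : ℕ} {c : W.H X} (h : IsMotivated W X j c) : IsDRB D X j c :=
  h _ (isSystem_drb hD)

section Pos

variable {W : WeilCohomology.{u, v} ops} [Algebra W.K ℝ]

/-- The motivated classes satisfy the Hodge-Riemann relations. -/
lemma mot_hr (hW : IsPolarised W) (X : 𝒱.Obj) : ∃ D, (motPred W).HR X D := by
  obtain ⟨D, hD, hL, hR⟩ := hW X
  refine ⟨D, hD, fun j hj v hv => ?_, fun j hj x hx => hR j x hj hx⟩
  have h0 : v ∈ W.gr X (2 * X.dim - 2 * j) := by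
    have := (motPred W).gr hv
    rwa [show 2 * (X.dim - j) = 2 * X.dim - 2 * j by omega] at this
  obtain ⟨x, hx, h⟩ := (hL (2 * j) hj).2 v h0
  rw [LinearMap.pow_mulLeft, LinearMap.mulLeft_apply] at h
  exact ⟨x, IsMotivated.lift hD hL hj hx (by rw [h]; exact hv), h⟩

lemma mot_nondeg (hW : IsPolarised W) (X : 𝒱.Obj) : (motPred W).sys.Nondeg X := by
  obtain ⟨D, hD⟩ := mot_hr hW X
  exact hD.nondeg

end Pos

end Pool.Agent.R920.DB
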